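import Pool.Agent.Helper29.StarThm
import Pool.Agent.Helper29.Power

set_option autoImplicit false
open Filter Topology

namespace Pool.Agent.Results.MP_768c9c_nt.CharacterClass

/-- The Kahane-Saias bound for completely multiplicative `f` whose values `f p` at primes lie, up
to an error that is small on average, in a region to the right of `-a(p)/p`, where `a(p)` is a
combination of Dirichlet characters whose mean value is at most the order of vanishing of the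
Dirichlet series of `f` at `0`. -/
theorem result (f : ℕ → ℂ) (h1 : f 1 = 1)
    (hmul : ∀ m n : ℕ, 0 < m → 0 < n → f (m * n) = f m * f n)
    (q : ℕ) [NeZero q] (τ : DirichletCharacter ℂ q → ℕ) (hτ : ∀ χ, τ χ⁻¹ = τ χ)
    (m : ℕ) (hm : 1 ≤ m) (hτ1 : τ 1 = 2 * m)
    (hord : m = 1 ∨ ∃ F : ℝ → ℂ, (∀ σ : ℝ, 0 < σ → Tendsto (fun X : ℕ =>
      ∑ n ∈ Finset.Icc 1 X, f n * (n : ℂ) ^ (-(σ : ℂ))) atTop (𝓝 (F σ))) ∧
      Tendsto (fun σ : ℝ => F σ / (σ : ℂ) ^ (m - 1)) (𝓝[>] 0) (𝓝 0))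
    (a : ℕ → ℝ) (ha : ∀ p, a p = (∑ χ, (τ χ : ℝ) * (χ p).re) / 2)
    (κ : ℝ) (hκ : 0 ≤ κ) (K : ℝ) (g : ℕ → ℂ)
    (hg : ∀ᶠ p : ℕ in atTop, p.Prime →
      (‖(p : ℂ) * g p‖ ≤ K ∧ 0 ≤ ((p : ℂ) * g p).re + a p ∧
        ((p : ℂ) * g p).im ^ 2 ≤ K * (((p : ℂ) * g p).re + a p)) ∨
      (0 ≤ a p ∧ (g p).im = 0 ∧ 0 ≤ (g p).re))
    (hfg : Summable (fun p : Nat.Primes =>
      min (Real.sqrt (p : ℕ) * ‖f p - g p‖) (((p : ℕ) : ℝ) ^ (-κ)))) :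
    ∃ c : ℝ, 0 < c ∧ ∀ M : ℕ, ∃ X : ℕ, M ≤ X ∧ 0 < X ∧
      c / (X : ℝ) ^ (1/2 + κ) ≤ ‖∑ n ∈ Finset.Icc 1 X, f n‖ := by
  obtain rfl : a = Pool.Agent.Helper29.aC τ := funext ha
  rcases le_total κ (1/2) with hκ2 | hκ2
  · exact Pool.Agent.Helper29.omega_star f h1 hmul q τ hτ m hm hτ1 hord κ hκ hκ2 K g hg hfg
  · obtain ⟨σ, _, hσ1, c, hc, hN⟩ := Pool.Agent.Helper29.power_omega f h1 hmul
    refine ⟨c, hc, fun M => ?_⟩
    obtain ⟨X, hX1, hX2, hX3⟩ := hN M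
    refine ⟨X, hX1, hX2, le_trans ?_ hX3⟩
    have hX : (1:ℝ) ≤ X := by exact_mod_cast hX2
    refine div_le_div_of_nonneg_left hc.le (by positivity) ?_
    exact Real.rpow_le_rpow_of_exponent_le hX (by linarith)

end Pool.Agent.Results.MP_768c9c_nt.CharacterClass
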