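import Pool.Agent.Helper55.MZ.Main

/-!
# MP_768c9c_nt: completely multiplicative functions whose sums beat `x^(-1/2)` have many zeros

Let `f` be completely multiplicative with partial sums `O(N^(-β))`, `0 < β ≤ 1`.  The Dirichlet
series `∑ f(n) n^(-s)` converges for `Re s > -β` to an analytic function `F`.  For every
`σ > -β` with `σ < -1/2`, or more generally with a divergent series `∑ |f(n)|² n^(-2σ')` for
some `σ' > σ`, the function `F` has at least `T exp(-(log T)^ϑ)` distinct zeros with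
`Re s > σ` and `0 < Im s < T`, for some `ϑ < 1` and arbitrarily large `T`.
-/

set_option autoImplicit false
open Filter Topology

namespace Pool.Agent.Results.MP_768c9c_nt.ManyZeros

theorem result (f : ℕ → ℂ) (hf1 : f 1 = 1)
    (hmul : ∀ m n : ℕ, 0 < m → 0 < n → f (m * n) = f m * f n)
    (β C : ℝ) (hβ0 : 0 < β) (hβ1 : β ≤ 1)
    (hS : ∀ N : ℕ, 1 ≤ N → ‖∑ n ∈ Finset.Icc 1 N, f n‖ ≤ C * (N : ℝ) ^ (-β)) :
    ∃ F : ℂ → ℂ, DifferentiableOn ℂ F {s : ℂ | -β < s.re} ∧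
      (∀ s : ℂ, -β < s.re →
        Tendsto (fun N : ℕ => ∑ n ∈ Finset.Icc 1 N, f n * (n : ℂ) ^ (-s)) atTop (𝓝 (F s))) ∧
      ∀ σ : ℝ, -β < σ →
        (σ < -(1 / 2) ∨
          ∃ σ' : ℝ, σ < σ' ∧ ¬ Summable fun n : ℕ => ‖f n‖ ^ 2 * (n : ℝ) ^ (-2 * σ')) →
        ∃ ϑ : ℝ, ϑ < 1 ∧ ∀ T₀ : ℝ, ∃ T : ℝ, T₀ ≤ T ∧ 1 < T ∧ ∃ Z : Finset ℂ,
          T * Real.exp (-(Real.log T) ^ ϑ) ≤ Z.card ∧
          ∀ s ∈ Z, F s = 0 ∧ σ < s.re ∧ 0 < s.im ∧ s.im < T :=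
  Pool.Agent.Helper55.MZ.main f hf1 hmul β C hβ0 hβ1 hS

end Pool.Agent.Results.MP_768c9c_nt.ManyZeros
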