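import Pool.Agent.Helper53.KO.G32

/-!
# The Kahane–Saïas question has a negative answer, with a power saving

There is a real completely multiplicative function `f` with `∑_{n ≤ N} f n = O(N ^ (-1/2 - δ))`
for some `δ > 0`.
-/

set_option autoImplicit false

namespace Pool.Agent.Results.MP_768c9c_nt.PowerSaving

theorem result :
    ∃ f : ℕ → ℝ, f 1 = 1 ∧ (∀ m n : ℕ, 0 < m → 0 < n → f (m * n) = f m * f n) ∧
      ∃ δ C : ℝ, 0 < δ ∧ ∀ N : ℕ, 0 < N →
        |∑ n ∈ Finset.Icc 1 N, f n| ≤ C * (N : ℝ) ^ (-(1/2 + δ)) :=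
  Pool.Agent.M20.Helper10.KS.powerSaving_all

end Pool.Agent.Results.MP_768c9c_nt.PowerSaving
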